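import Mathlib

/-!
# MP_4a8fbb_co: the regular icosahedron and the regular dodecahedron can be enlarged by leapfrog jumps

Both solids can be enlarged, by the factor `φ ^ 3 = √5 + 2`: explicit sequences of `44` jumps
(icosahedron) and `56` jumps (dodecahedron) are checked in coordinates of `ℤ[φ]³`.
During the whole process no two pieces occupy the same point.
-/

set_option autoImplicit false

namespace Pool.Agent.Results.MP_4a8fbb_co.Leapfrog

open Real

/-- Euclidean three-space. -/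
abbrev E3 := EuclideanSpace ℝ (Fin 3)

/-- A configuration of `n` pieces: `p i` is the position of the piece `i`. -/
abbrev Config (n : ℕ) := Fin n → E3

/-- One legal move: a piece `i` is reflected through (the position of) another piece `j`;
all other pieces stay where they are. -/
def Jump {n : ℕ} (p q : Config n) : Prop :=
  ∃ i j : Fin n, i ≠ j ∧ q = Function.update p i ((2 : ℝ) • p j - p i)

/-- `Reach p q`: a finite sequence of legal moves leads from `p` to `q`, and after every move of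
the sequence the pieces are at pairwise distinct points. -/
def Reach {n : ℕ} (p q : Config n) : Prop :=
  Relation.ReflTransGen (fun a b : Config n => Jump a b ∧ Function.Injective b) p q

/-- `σ` is a similarity of ratio `r`: the composition of a linear isometry, the homothety
`x ↦ r • x` with `0 < r`, and a translation. -/
def IsSimilarity (r : ℝ) (σ : E3 → E3) : Prop :=
  0 < r ∧ ∃ (U : E3 ≃ₗᵢ[ℝ] E3) (c : E3), ∀ x, σ x = r • U x + c

/-- The set `V` has exactly `n` points and can be enlarged: however `n` pieces are placed on the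
`n` points of `V`, some finite sequence of legal moves ends with the `n` pieces on the `n` points
of a similar copy `σ '' V` of ratio `r > 1`. -/
def CanBeEnlarged (n : ℕ) (V : Set E3) : Prop :=
  V.ncard = n ∧ ∀ p : Config n, Function.Injective p → Set.range p = V →
    ∃ q : Config n, Reach p q ∧ Function.Injective q ∧
      ∃ (r : ℝ) (σ : E3 → E3), 1 < r ∧ IsSimilarity r σ ∧ Set.range q = σ '' V

/-- The vertices of the standard regular icosahedron: the `12` points `(0, ±1, ±φ)` and their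
cyclic shifts, `φ` the golden ratio. -/
def icosahedronVertices : Set E3 :=
  {x | ∃ s t : ℝ, (s = 1 ∨ s = -1) ∧ (t = 1 ∨ t = -1) ∧
    (x = !₂[0, s, t * goldenRatio] ∨ x = !₂[s, t * goldenRatio, 0] ∨
      x = !₂[t * goldenRatio, 0, s])}

/-- The vertices of the standard regular dodecahedron: the `8` points `(±1, ±1, ±1)`, the `12`
points `(0, ±1/φ, ±φ)` and their cyclic shifts. -/
def dodecahedronVertices : Set E3 :=
  {x | (∃ s t u : ℝ, (s = 1 ∨ s = -1) ∧ (t = 1 ∨ t = -1) ∧ (u = 1 ∨ u = -1) ∧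
      x = !₂[s, t, u]) ∨
    ∃ s t : ℝ, (s = 1 ∨ s = -1) ∧ (t = 1 ∨ t = -1) ∧
      (x = !₂[0, s / goldenRatio, t * goldenRatio] ∨
        x = !₂[s / goldenRatio, t * goldenRatio, 0] ∨
        x = !₂[t * goldenRatio, 0, s / goldenRatio])}

/-- `V` is the vertex set of a regular icosahedron: a similar copy of the standard one. -/
def IsRegularIcosahedron (V : Set E3) : Prop :=
  ∃ (r : ℝ) (σ : E3 → E3), IsSimilarity r σ ∧ V = σ '' icosahedronVertices

/-- `V` is the vertex set of a regular dodecahedron: a similar copy of the standard one. -/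
def IsRegularDodecahedron (V : Set E3) : Prop :=
  ∃ (r : ℝ) (σ : E3 → E3), IsSimilarity r σ ∧ V = σ '' dodecahedronVertices

/-! ### Points with coordinates in `ℤ[φ]` -/

/-- `(a, b, c, d, e, f)` stands for the point `(a + b φ, c + d φ, e + f φ)`. -/
abbrev Z6 := ℤ × ℤ × ℤ × ℤ × ℤ × ℤ

/-- The point of three-space given by a sextuple of integers. -/
noncomputable def toE3 (z : Z6) : E3 :=
  !₂[(z.1 : ℝ) + z.2.1 * goldenRatio, (z.2.2.1 : ℝ) + z.2.2.2.1 * goldenRatio,
    (z.2.2.2.2.1 : ℝ) + z.2.2.2.2.2 * goldenRatio]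

/-- Reflection of `p` through `q`. -/
def refl6 (p q : Z6) : Z6 :=
  (2 * q.1 - p.1, 2 * q.2.1 - p.2.1, 2 * q.2.2.1 - p.2.2.1, 2 * q.2.2.2.1 - p.2.2.2.1,
    2 * q.2.2.2.2.1 - p.2.2.2.2.1, 2 * q.2.2.2.2.2 - p.2.2.2.2.2)

/-- The map `x ↦ φ ^ 3 x + t` in the integer coordinates. -/
def scale6 (t z : Z6) : Z6 :=
  (z.1 + 2 * z.2.1 + t.1, 2 * z.1 + 3 * z.2.1 + t.2.1,
    z.2.2.1 + 2 * z.2.2.2.1 + t.2.2.1, 2 * z.2.2.1 + 3 * z.2.2.2.1 + t.2.2.2.1,
    z.2.2.2.2.1 + 2 * z.2.2.2.2.2 + t.2.2.2.2.1, 2 * z.2.2.2.2.1 + 3 * z.2.2.2.2.2 + t.2.2.2.2.2)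

/-- One jump in the integer coordinates. -/
def step (l : List Z6) (m : ℕ × ℕ) : List Z6 :=
  l.set m.1 (refl6 (l.getD m.1 0) (l.getD m.2 0))

/-- Check that the moves are legal jumps leading from `l` to `tgt`, all configurations on the way
having pairwise distinct points. -/
def okRun (n : ℕ) (tgt : List Z6) : List Z6 → List (ℕ × ℕ) → Bool
  | l, [] => decide (l = tgt)
  | l, m :: ms => decide (m.1 ≠ m.2) && decide (m.1 < n) && decide (m.2 < n) &&
      decide (step l m).Nodup && okRun n tgt (step l m) ms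

/-- The configuration given by a list of sextuples. -/
noncomputable def toConfig (n : ℕ) (l : List Z6) : Config n := fun i => toE3 (l.getD i 0)

lemma toE3_refl (p q : Z6) : toE3 (refl6 p q) = (2 : ℝ) • toE3 q - toE3 p := by
  ext k
  fin_cases k <;> simp [toE3, refl6] <;> ring

lemma phi_cube : goldenRatio ^ 3 = 1 + 2 * goldenRatio := by
  have h := goldenRatio_sq
  calc goldenRatio ^ 3 = goldenRatio ^ 2 * goldenRatio := by ring
    _ = (goldenRatio + 1) * goldenRatio := by rw [h]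
    _ = goldenRatio ^ 2 + goldenRatio := by ring
    _ = 1 + 2 * goldenRatio := by rw [h]; ring

lemma toE3_scale (t z : Z6) :
    toE3 (scale6 t z) = (goldenRatio ^ 3) • toE3 z + toE3 t := by
  have h := goldenRatio_sq
  rw [phi_cube]
  ext k
  fin_cases k
  · simp [toE3, scale6]
    linear_combination (-2 * (z.2.1 : ℝ)) * h
  · simp [toE3, scale6]
    linear_combination (-2 * (z.2.2.2.1 : ℝ)) * h
  · simp [toE3, scale6]
    linear_combination (-2 * (z.2.2.2.2.2 : ℝ)) * h

lemma int_phi_inj {a b c d : ℤ} (h : (a : ℝ) + b * goldenRatio = c + d * goldenRatio) :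
    a = c ∧ b = d := by
  have hbd : b = d := by
    by_contra hne
    have hne' : ((b - d : ℤ) : ℝ) ≠ 0 := by exact_mod_cast sub_ne_zero.mpr hne
    apply goldenRatio_irrational
    refine ⟨((c - a : ℤ) : ℚ) / ((b - d : ℤ) : ℚ), ?_⟩
    push_cast
    push_cast at hne'
    rw [div_eq_iff hne']
    linear_combination -h
  subst hbd
  refine ⟨?_, rfl⟩
  have : (a : ℝ) = c := by linarith
  exact_mod_cast this

lemma toE3_injective : Function.Injective toE3 := by
  rintro ⟨a, b, c, d, e, f⟩ ⟨a', b', c', d', e', f'⟩ h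
  have h0 := congrArg (fun x : E3 => x 0) h
  have h1 := congrArg (fun x : E3 => x 1) h
  have h2 := congrArg (fun x : E3 => x 2) h
  simp [toE3] at h0 h1 h2
  obtain ⟨r0, r1⟩ := int_phi_inj h0
  obtain ⟨r2, r3⟩ := int_phi_inj h1
  obtain ⟨r4, r5⟩ := int_phi_inj h2
  simp [r0, r1, r2, r3, r4, r5]

lemma toConfig_injective {n : ℕ} {l : List Z6} (hl : l.length = n) (hn : l.Nodup) :
    Function.Injective (toConfig n l) := by
  intro i j hij
  have h := toE3_injective hij
  have hi : (i : ℕ) < l.length := by rw [hl]; exact i.2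
  have hj : (j : ℕ) < l.length := by rw [hl]; exact j.2
  rw [List.getD_eq_getElem _ _ hi, List.getD_eq_getElem _ _ hj] at h
  exact Fin.ext ((hn.getElem_inj_iff).1 h)

lemma toConfig_range {n : ℕ} {l : List Z6} (hl : l.length = n) :
    Set.range (toConfig n l) = toE3 '' {z | z ∈ l} := by
  ext x
  constructor
  · rintro ⟨i, rfl⟩
    have hi : (i : ℕ) < l.length := by rw [hl]; exact i.2
    refine ⟨l.getD i 0, ?_, rfl⟩
    rw [List.getD_eq_getElem _ _ hi]
    exact List.getElem_mem hi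
  · rintro ⟨z, hz, rfl⟩
    obtain ⟨i, hi, rfl⟩ := List.mem_iff_getElem.1 hz
    refine ⟨⟨i, by omega⟩, ?_⟩
    simp only [toConfig]
    rw [List.getD_eq_getElem _ _ hi]

lemma toConfig_step {n : ℕ} {l : List Z6} (hl : l.length = n) (i j : Fin n) :
    toConfig n (step l (i, j)) =
      Function.update (toConfig n l) i ((2 : ℝ) • toConfig n l j - toConfig n l i) := by
  funext k
  by_cases hk : k = i
  · subst hk
    rw [Function.update_self]
    have hk' : (k : ℕ) < (step l (k, j)).length := by simp [step, hl]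
    simp only [toConfig]
    rw [List.getD_eq_getElem _ _ hk']
    simp only [step, List.getElem_set_self]
    exact toE3_refl _ _
  · rw [Function.update_of_ne hk]
    have hk' : (k : ℕ) < (step l (i, j)).length := by simp [step, hl]
    have hk2 : (k : ℕ) < l.length := by rw [hl]; exact k.2
    simp only [toConfig]
    rw [List.getD_eq_getElem _ _ hk', List.getD_eq_getElem _ _ hk2]
    simp only [step]
    rw [List.getElem_set_ne]
    intro h
    exact hk (Fin.ext h.symm)

lemma reach_of_okRun {n : ℕ} {tgt : List Z6} (ms : List (ℕ × ℕ)) :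
    ∀ l : List Z6, l.length = n → okRun n tgt l ms = true →
      Reach (toConfig n l) (toConfig n tgt) := by
  induction ms with
  | nil =>
    intro l _ h
    have : l = tgt := by simpa [okRun] using h
    subst this
    exact Relation.ReflTransGen.refl
  | cons m ms ih =>
    intro l hl h
    simp only [okRun, Bool.and_eq_true, decide_eq_true_eq] at h
    obtain ⟨⟨⟨⟨h1, h2⟩, h3⟩, h4⟩, h5⟩ := h
    have hl' : (step l m).length = n := by simp [step, hl]
    refine Relation.ReflTransGen.head ?_ (ih _ hl' h5)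
    refine ⟨⟨⟨m.1, h2⟩, ⟨m.2, h3⟩, ?_, ?_⟩, toConfig_injective hl' h4⟩
    · intro h
      exact h1 (Fin.mk.inj_iff.1 h)
    · exact toConfig_step hl ⟨m.1, h2⟩ ⟨m.2, h3⟩

/-! ### Jumps commute with similarities and with relabelling the pieces -/

lemma reach_relabel {n : ℕ} (e : Fin n ≃ Fin n) {p q : Config n} (h : Reach p q) :
    Reach (p ∘ e) (q ∘ e) := by
  induction h with
  | refl => exact Relation.ReflTransGen.refl
  | tail _ hbc ih =>
    refine Relation.ReflTransGen.tail ih ?_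
    obtain ⟨⟨i, j, hij, rfl⟩, hinj⟩ := hbc
    refine ⟨⟨e.symm i, e.symm j, fun h => hij (e.symm.injective h), ?_⟩,
      hinj.comp e.injective⟩
    funext k
    by_cases hk : k = e.symm i
    · subst hk
      simp
    · have : e k ≠ i := fun h => hk (by rw [← h]; simp)
      simp [Function.update_of_ne hk, Function.update_of_ne this]

lemma similarity_injective {r : ℝ} {σ : E3 → E3} (h : IsSimilarity r σ) :
    Function.Injective σ := by
  obtain ⟨hr, U, c, hσ⟩ := h
  intro x y hxy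
  rw [hσ, hσ] at hxy
  have h1 : r • U x = r • U y := add_right_cancel hxy
  have h2 : U x = U y := smul_right_injective E3 hr.ne' h1
  exact U.injective h2

lemma reach_similar {n : ℕ} {r : ℝ} {σ : E3 → E3} (hσ : IsSimilarity r σ) {p q : Config n}
    (h : Reach p q) : Reach (σ ∘ p) (σ ∘ q) := by
  induction h with
  | refl => exact Relation.ReflTransGen.refl
  | tail _ hbc ih =>
    refine Relation.ReflTransGen.tail ih ?_
    obtain ⟨⟨i, j, hij, rfl⟩, hinj⟩ := hbc
    refine ⟨⟨i, j, hij, ?_⟩, (similarity_injective hσ).comp hinj⟩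
    obtain ⟨hr, U, c, hc⟩ := hσ
    funext k
    by_cases hk : k = i
    · subst hk
      simp only [Function.comp_apply, Function.update_self, hc, map_sub, map_smul]
      module
    · simp [Function.update_of_ne hk]

/-- If some arrangement of the pieces on `V` can be enlarged by `x ↦ r x + t`, `r > 1`, then all
similar copies of `V` can be enlarged. -/
lemma enlarge_of_one {n : ℕ} {V : Set E3} (p₀ q₀ : Config n) (hp : Function.Injective p₀)
    (hV : Set.range p₀ = V) (hq : Function.Injective q₀) (hreach : Reach p₀ q₀) (r : ℝ)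
    (hr : 1 < r) (t : E3) (hrange : Set.range q₀ = (fun x => r • x + t) '' V)
    {r₁ : ℝ} {σ₁ : E3 → E3} (h₁ : IsSimilarity r₁ σ₁) : CanBeEnlarged n (σ₁ '' V) := by
  have hinj₁ := similarity_injective h₁
  have hcard : (σ₁ '' V).ncard = n := by
    rw [Set.ncard_image_of_injective _ hinj₁, ← hV, ← Set.image_univ,
      Set.ncard_image_of_injective _ hp, Set.ncard_univ]
    simp
  refine ⟨hcard, ?_⟩
  intro p hpinj hprange
  -- the relabelling
  have hmem : ∀ i, ∃ j, σ₁ (p₀ j) = p i := by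
    intro i
    have : p i ∈ σ₁ '' V := by rw [← hprange]; exact ⟨i, rfl⟩
    obtain ⟨x, hx, hxi⟩ := this
    rw [← hV] at hx
    obtain ⟨j, rfl⟩ := hx
    exact ⟨j, hxi⟩
  choose e he using hmem
  have heinj : Function.Injective e := by
    intro a b hab
    apply hpinj
    rw [← he a, ← he b, hab]
  let e' : Fin n ≃ Fin n := Equiv.ofBijective e (Finite.injective_iff_bijective.1 heinj)
  have hpe : p = (σ₁ ∘ p₀) ∘ e' := by
    funext i
    exact (he i).symm
  refine ⟨(σ₁ ∘ q₀) ∘ e', ?_, (hinj₁.comp hq).comp e'.injective, ?_⟩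
  · rw [hpe]
    exact reach_relabel e' (reach_similar h₁ hreach)
  · obtain ⟨hr₁, U, c, hc⟩ := h₁
    refine ⟨r, fun y => r • (LinearIsometryEquiv.refl ℝ E3) y + (r₁ • U t + c - r • c), hr,
      ⟨by linarith, LinearIsometryEquiv.refl ℝ E3, _, fun x => rfl⟩, ?_⟩
    rw [Set.range_comp, e'.range_eq_univ, Set.image_univ, Set.range_comp, hrange,
      Set.image_image, Set.image_image]
    apply Set.image_congr
    intro x _
    simp only [hc, map_add, map_smul, LinearIsometryEquiv.coe_refl, id_eq]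
    module

/-! ### The explicit jump sequences -/

/-- The vertices in `ℤ[φ]³` coordinates. -/
def icosaStart : List Z6 := [
  (0, 0, 1, 0, 0, 1),
  (1, 0, 0, 1, 0, 0),
  (0, 1, 0, 0, 1, 0),
  (0, 0, 1, 0, 0, -1),
  (1, 0, 0, -1, 0, 0),
  (0, -1, 0, 0, 1, 0),
  (0, 0, -1, 0, 0, 1),
  (-1, 0, 0, 1, 0, 0),
  (0, 1, 0, 0, -1, 0),
  (0, 0, -1, 0, 0, -1),
  (-1, 0, 0, -1, 0, 0),
  (0, -1, 0, 0, -1, 0)]

/-- The translation vector of the final similarity. -/
def icosaShift : Z6 := (-2, 2, 2, 0, 0, 0)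

/-- The jumps: `(i, j)` means piece `i` jumps over piece `j`. -/
def icosaMoves : List (ℕ × ℕ) := [
  (1, 10), (4, 0), (4, 6), (4, 7), (9, 0), (9, 11), (9, 7), (3, 0),
  (3, 11), (3, 10), (0, 8), (0, 6), (0, 10), (2, 7), (2, 6), (2, 10),
  (7, 8), (7, 11), (7, 10), (5, 11), (5, 8), (5, 6), (5, 8), (6, 10),
  (6, 5), (6, 7), (6, 1), (11, 10), (11, 5), (11, 0), (11, 1), (8, 0),
  (8, 1), (8, 7), (8, 5), (8, 10), (8, 1), (10, 4), (10, 3), (10, 5),
  (10, 2), (10, 1), (10, 0), (10, 1)]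

/-- The order in which the final places are taken. -/
def icosaPerm : List Z6 := [
  (0, 0, -1, 0, 0, -1),
  (-1, 0, 0, -1, 0, 0),
  (0, -1, 0, 0, -1, 0),
  (0, 0, -1, 0, 0, 1),
  (-1, 0, 0, 1, 0, 0),
  (0, 1, 0, 0, -1, 0),
  (0, 0, 1, 0, 0, -1),
  (1, 0, 0, -1, 0, 0),
  (0, -1, 0, 0, 1, 0),
  (0, 0, 1, 0, 0, 1),
  (1, 0, 0, 1, 0, 0),
  (0, 1, 0, 0, 1, 0)]

/-- The vertices in `ℤ[φ]³` coordinates. -/
def dodecaStart : List Z6 := [
  (1, 0, 1, 0, 1, 0),
  (1, 0, 1, 0, -1, 0),
  (1, 0, -1, 0, 1, 0),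
  (1, 0, -1, 0, -1, 0),
  (-1, 0, 1, 0, 1, 0),
  (-1, 0, 1, 0, -1, 0),
  (-1, 0, -1, 0, 1, 0),
  (-1, 0, -1, 0, -1, 0),
  (0, 0, -1, 1, 0, 1),
  (-1, 1, 0, 1, 0, 0),
  (0, 1, 0, 0, -1, 1),
  (0, 0, -1, 1, 0, -1),
  (-1, 1, 0, -1, 0, 0),
  (0, -1, 0, 0, -1, 1),
  (0, 0, 1, -1, 0, 1),
  (1, -1, 0, 1, 0, 0),
  (0, 1, 0, 0, 1, -1),
  (0, 0, 1, -1, 0, -1),
  (1, -1, 0, -1, 0, 0),
  (0, -1, 0, 0, 1, -1)]

/-- The translation vector of the final similarity. -/
def dodecaShift : Z6 := (-2, 0, 0, 0, 0, -2)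

/-- The jumps: `(i, j)` means piece `i` jumps over piece `j`. -/
def dodecaMoves : List (ℕ × ℕ) := [
  (19, 16), (5, 12), (11, 6), (17, 4), (7, 9), (13, 1), (13, 0), (13, 16),
  (8, 6), (8, 19), (8, 13), (12, 13), (12, 19), (12, 17), (14, 4), (14, 19),
  (14, 13), (1, 4), (1, 0), (1, 18), (9, 1), (9, 17), (9, 7), (4, 1),
  (4, 9), (18, 15), (18, 2), (18, 16), (16, 18), (16, 12), (2, 6), (2, 7),
  (2, 18), (6, 2), (6, 12), (6, 7), (0, 18), (0, 12), (0, 18), (0, 6),
  (10, 13), (10, 16), (10, 1), (10, 4), (3, 0), (3, 4), (3, 13), (3, 12),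
  (3, 13), (3, 4), (15, 0), (15, 4), (15, 3), (15, 12), (15, 13), (15, 9)]

/-- The order in which the final places are taken. -/
def dodecaPerm : List Z6 := [
  (-1, 0, -1, 0, -1, 0),
  (-1, 0, -1, 0, 1, 0),
  (-1, 0, 1, 0, -1, 0),
  (-1, 0, 1, 0, 1, 0),
  (1, 0, -1, 0, -1, 0),
  (1, 0, -1, 0, 1, 0),
  (1, 0, 1, 0, -1, 0),
  (1, 0, 1, 0, 1, 0),
  (0, 0, 1, -1, 0, -1),
  (1, -1, 0, -1, 0, 0),
  (0, -1, 0, 0, 1, -1),
  (0, 0, 1, -1, 0, 1),
  (1, -1, 0, 1, 0, 0),
  (0, 1, 0, 0, 1, -1),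
  (0, 0, -1, 1, 0, -1),
  (-1, 1, 0, -1, 0, 0),
  (0, -1, 0, 0, -1, 1),
  (0, 0, -1, 1, 0, 1),
  (-1, 1, 0, 1, 0, 0),
  (0, 1, 0, 0, -1, 1)]

lemma icosa_run : okRun 12 (icosaPerm.map (scale6 icosaShift)) icosaStart icosaMoves = true := by
  decide +kernel

lemma dodeca_run :
    okRun 20 (dodecaPerm.map (scale6 dodecaShift)) dodecaStart dodecaMoves = true := by
  decide +kernel

lemma enlarge_of_lists {n : ℕ} (L L' : List Z6) (t : Z6) (ms : List (ℕ × ℕ))
    (hL : L.length = n) (hLn : L.Nodup) (hperm : L'.Perm L)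
    (hTn : (L'.map (scale6 t)).Nodup)
    (hrun : okRun n (L'.map (scale6 t)) L ms = true)
    {r₁ : ℝ} {σ₁ : E3 → E3} (h₁ : IsSimilarity r₁ σ₁) :
    CanBeEnlarged n (σ₁ '' (toE3 '' {z | z ∈ L})) := by
  have hlen : (L'.map (scale6 t)).length = n := by simp [hperm.length_eq, hL]
  refine enlarge_of_one (toConfig n L) (toConfig n (L'.map (scale6 t)))
    (toConfig_injective hL hLn) (toConfig_range hL) (toConfig_injective hlen hTn)
    (reach_of_okRun ms L hL hrun) (goldenRatio ^ 3) ?_ (toE3 t) ?_ h₁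
  · rw [phi_cube]
    have := goldenRatio_pos
    linarith
  · rw [toConfig_range hlen]
    ext x
    constructor
    · rintro ⟨z, hz, rfl⟩
      obtain ⟨w, hw, rfl⟩ := List.mem_map.1 hz
      exact ⟨toE3 w, ⟨w, hperm.mem_iff.1 hw, rfl⟩, (toE3_scale t w).symm⟩
    · rintro ⟨_, ⟨w, hw, rfl⟩, rfl⟩
      exact ⟨scale6 t w, List.mem_map.2 ⟨w, hperm.mem_iff.2 hw, rfl⟩, toE3_scale t w⟩

lemma icosa_set : icosahedronVertices = toE3 '' {z | z ∈ icosaStart} := by
  ext x
  constructor
  · rintro ⟨s, t, hs, ht, h⟩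
    rcases hs with rfl | rfl <;> rcases ht with rfl | rfl <;> rcases h with rfl | rfl | rfl
    · exact ⟨(0, 0, 1, 0, 0, 1), by decide, by simp [toE3]⟩
    · exact ⟨(1, 0, 0, 1, 0, 0), by decide, by simp [toE3]⟩
    · exact ⟨(0, 1, 0, 0, 1, 0), by decide, by simp [toE3]⟩
    · exact ⟨(0, 0, 1, 0, 0, -1), by decide, by simp [toE3]⟩
    · exact ⟨(1, 0, 0, -1, 0, 0), by decide, by simp [toE3]⟩
    · exact ⟨(0, -1, 0, 0, 1, 0), by decide, by simp [toE3]⟩
    · exact ⟨(0, 0, -1, 0, 0, 1), by decide, by simp [toE3]⟩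
    · exact ⟨(-1, 0, 0, 1, 0, 0), by decide, by simp [toE3]⟩
    · exact ⟨(0, 1, 0, 0, -1, 0), by decide, by simp [toE3]⟩
    · exact ⟨(0, 0, -1, 0, 0, -1), by decide, by simp [toE3]⟩
    · exact ⟨(-1, 0, 0, -1, 0, 0), by decide, by simp [toE3]⟩
    · exact ⟨(0, -1, 0, 0, -1, 0), by decide, by simp [toE3]⟩
  · rintro ⟨z, hz, rfl⟩
    simp only [icosaStart, List.mem_cons, List.not_mem_nil, or_false, Set.mem_ofPred_eq] at hz
    rcases hz with rfl | rfl | rfl | rfl | rfl | rfl | rfl | rfl | rfl | rfl | rfl | rfl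
    · exact ⟨1, 1, by simp, by simp, by simp [toE3]⟩
    · exact ⟨1, 1, by simp, by simp, by simp [toE3]⟩
    · exact ⟨1, 1, by simp, by simp, by simp [toE3]⟩
    · exact ⟨1, -1, by simp, by simp, by simp [toE3]⟩
    · exact ⟨1, -1, by simp, by simp, by simp [toE3]⟩
    · exact ⟨1, -1, by simp, by simp, by simp [toE3]⟩
    · exact ⟨-1, 1, by simp, by simp, by simp [toE3]⟩
    · exact ⟨-1, 1, by simp, by simp, by simp [toE3]⟩
    · exact ⟨-1, 1, by simp, by simp, by simp [toE3]⟩
    · exact ⟨-1, -1, by simp, by simp, by simp [toE3]⟩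
    · exact ⟨-1, -1, by simp, by simp, by simp [toE3]⟩
    · exact ⟨-1, -1, by simp, by simp, by simp [toE3]⟩

lemma one_div_phi : (1 : ℝ) / goldenRatio = -1 + goldenRatio := by
  rw [div_eq_iff goldenRatio_ne_zero]
  linear_combination -goldenRatio_sq

lemma neg_one_div_phi : (-1 : ℝ) / goldenRatio = 1 - goldenRatio := by
  rw [div_eq_iff goldenRatio_ne_zero]
  linear_combination goldenRatio_sq

lemma dodeca_set : dodecahedronVertices = toE3 '' {z | z ∈ dodecaStart} := by
  have k1 := one_div_phi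
  have k2 := neg_one_div_phi
  have k3 : (1 : ℝ) - goldenRatio = 1 + -goldenRatio := by ring
  ext x
  constructor
  · rintro (⟨s, t, u, hs, ht, hu, rfl⟩ | ⟨s, t, hs, ht, h⟩)
    · rcases hs with rfl | rfl <;> rcases ht with rfl | rfl <;> rcases hu with rfl | rfl
      · exact ⟨(1, 0, 1, 0, 1, 0), by decide, by simp [toE3]⟩
      · exact ⟨(1, 0, 1, 0, -1, 0), by decide, by simp [toE3]⟩
      · exact ⟨(1, 0, -1, 0, 1, 0), by decide, by simp [toE3]⟩
      · exact ⟨(1, 0, -1, 0, -1, 0), by decide, by simp [toE3]⟩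
      · exact ⟨(-1, 0, 1, 0, 1, 0), by decide, by simp [toE3]⟩
      · exact ⟨(-1, 0, 1, 0, -1, 0), by decide, by simp [toE3]⟩
      · exact ⟨(-1, 0, -1, 0, 1, 0), by decide, by simp [toE3]⟩
      · exact ⟨(-1, 0, -1, 0, -1, 0), by decide, by simp [toE3]⟩
    · rcases hs with rfl | rfl <;> rcases ht with rfl | rfl <;> rcases h with rfl | rfl | rfl
      · exact ⟨(0, 0, -1, 1, 0, 1), by decide, by simp only [k1, k2, k3]; simp [toE3]⟩
      · exact ⟨(-1, 1, 0, 1, 0, 0), by decide, by simp only [k1, k2, k3]; simp [toE3]⟩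
      · exact ⟨(0, 1, 0, 0, -1, 1), by decide, by simp only [k1, k2, k3]; simp [toE3]⟩
      · exact ⟨(0, 0, -1, 1, 0, -1), by decide, by simp only [k1, k2, k3]; simp [toE3]⟩
      · exact ⟨(-1, 1, 0, -1, 0, 0), by decide, by simp only [k1, k2, k3]; simp [toE3]⟩
      · exact ⟨(0, -1, 0, 0, -1, 1), by decide, by simp only [k1, k2, k3]; simp [toE3]⟩
      · exact ⟨(0, 0, 1, -1, 0, 1), by decide, by simp only [k1, k2, k3]; simp [toE3]⟩
      · exact ⟨(1, -1, 0, 1, 0, 0), by decide, by simp only [k1, k2, k3]; simp [toE3]⟩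
      · exact ⟨(0, 1, 0, 0, 1, -1), by decide, by simp only [k1, k2, k3]; simp [toE3]⟩
      · exact ⟨(0, 0, 1, -1, 0, -1), by decide, by simp only [k1, k2, k3]; simp [toE3]⟩
      · exact ⟨(1, -1, 0, -1, 0, 0), by decide, by simp only [k1, k2, k3]; simp [toE3]⟩
      · exact ⟨(0, -1, 0, 0, 1, -1), by decide, by simp only [k1, k2, k3]; simp [toE3]⟩
  · rintro ⟨z, hz, rfl⟩
    simp only [dodecaStart, List.mem_cons, List.not_mem_nil, or_false, Set.mem_ofPred_eq] at hz
    rcases hz with rfl | rfl | rfl | rfl | rfl | rfl | rfl | rfl | rfl | rfl | rfl | rfl | rfl | rfl | rfl | rfl | rfl | rfl | rfl | rfl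
    · exact Or.inl ⟨1, 1, 1, by simp, by simp, by simp, by simp [toE3]⟩
    · exact Or.inl ⟨1, 1, -1, by simp, by simp, by simp, by simp [toE3]⟩
    · exact Or.inl ⟨1, -1, 1, by simp, by simp, by simp, by simp [toE3]⟩
    · exact Or.inl ⟨1, -1, -1, by simp, by simp, by simp, by simp [toE3]⟩
    · exact Or.inl ⟨-1, 1, 1, by simp, by simp, by simp, by simp [toE3]⟩
    · exact Or.inl ⟨-1, 1, -1, by simp, by simp, by simp, by simp [toE3]⟩
    · exact Or.inl ⟨-1, -1, 1, by simp, by simp, by simp, by simp [toE3]⟩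
    · exact Or.inl ⟨-1, -1, -1, by simp, by simp, by simp, by simp [toE3]⟩
    · exact Or.inr ⟨1, 1, by simp, by simp, by simp only [k1, k2, k3]; simp [toE3]⟩
    · exact Or.inr ⟨1, 1, by simp, by simp, by simp only [k1, k2, k3]; simp [toE3]⟩
    · exact Or.inr ⟨1, 1, by simp, by simp, by simp only [k1, k2, k3]; simp [toE3]⟩
    · exact Or.inr ⟨1, -1, by simp, by simp, by simp only [k1, k2, k3]; simp [toE3]⟩
    · exact Or.inr ⟨1, -1, by simp, by simp, by simp only [k1, k2, k3]; simp [toE3]⟩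
    · exact Or.inr ⟨1, -1, by simp, by simp, by simp only [k1, k2, k3]; simp [toE3]⟩
    · exact Or.inr ⟨-1, 1, by simp, by simp, by simp only [k1, k2, k3]; simp [toE3]⟩
    · exact Or.inr ⟨-1, 1, by simp, by simp, by simp only [k1, k2, k3]; simp [toE3]⟩
    · exact Or.inr ⟨-1, 1, by simp, by simp, by simp only [k1, k2, k3]; simp [toE3]⟩
    · exact Or.inr ⟨-1, -1, by simp, by simp, by simp only [k1, k2, k3]; simp [toE3]⟩
    · exact Or.inr ⟨-1, -1, by simp, by simp, by simp only [k1, k2, k3]; simp [toE3]⟩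
    · exact Or.inr ⟨-1, -1, by simp, by simp, by simp only [k1, k2, k3]; simp [toE3]⟩

/-- **Every regular icosahedron and every regular dodecahedron can be enlarged** by leapfrog
jumps. -/
theorem result :
    (∀ V : Set E3, IsRegularIcosahedron V → CanBeEnlarged 12 V) ∧
      (∀ V : Set E3, IsRegularDodecahedron V → CanBeEnlarged 20 V) := by
  refine ⟨?_, ?_⟩
  · rintro V ⟨r, σ, hσ, rfl⟩
    rw [icosa_set]
    exact enlarge_of_lists icosaStart icosaPerm icosaShift icosaMoves (by decide) (by decide)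
      (by decide) (by decide) icosa_run hσ
  · rintro V ⟨r, σ, hσ, rfl⟩
    rw [dodeca_set]
    exact enlarge_of_lists dodecaStart dodecaPerm dodecaShift dodecaMoves (by decide)
      (by decide +kernel) (by decide +kernel) (by decide +kernel) dodeca_run hσ

end Pool.Agent.Results.MP_4a8fbb_co.Leapfrog
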